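import Pool.Agent.V1153.UR.Spl

/-!
# Varieties with a Zariski-dense entire curve of finite complexity

Let `X` be an integral projective variety over the complex numbers. We suppose that `X` is
Brody-special by a curve or a map of one of the following kinds:

(a) there is a Zariski-dense entire curve in `X` of finite complexity (`Curve`, `Bdd`, `DenseIn`):
the homogeneous coordinates, in some open set and up to a common factor, are polynomials in `z`,
`1 / q(z)` and the entries of the solutions `y_1, ..., y_s` of iterated systems of linear
differential equations, the coefficients of the system for `y_l` being such polynomials in `z`,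
`1 / q(z)` and the entries of `y_1, ..., y_{l-1}`; or

(b) there is a Zariski-dense meromorphic map from some space `ℂ^k` to `X` with homogeneous
coordinates which are sums of products of polynomials and exponentials of arbitrary entire functions
(`ExpMap`, `DenseIn`).

Then all projective varieties `Y` of positive dimension (`PosDim`) which are dominated by `X`
(`DomRat`) are uniruled (`Uniruled`), and all pluricanonical forms on their smooth projective models
vanish (`Pluricanonical`, by forms on the function field). So `X` dominates no variety of positive
dimension which is of general type, or of nonnegative Kodaira dimension.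

Conversely, if `X` is unirational (`Unirational`) and not a point, then there is a map as in (b), with
`k = 1` and linear functions in the exponents.
-/

set_option autoImplicit false

namespace Pool.Agent.Results.MP_1209e6_ag.DenseCurvesImages

open MvPolynomial Pool.Agent.V1153.UG Pool.Agent.V1153.XS Pool.Agent.V1153.UR
open Pool.Agent.TH143.GT (FunField Pluricanonical)

/-- Let `I` be a prime ideal, with the projective variety `X`. If there is a Zariski-dense entire curve
of finite complexity in `X`, or a Zariski-dense meromorphic map from some space `ℂ^k` to `X` given by
sums of products of polynomials and exponentials of entire functions, then every integral projective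
variety `Y` of positive dimension with a dominant rational map from `X` to `Y` is uniruled and has no
nonzero pluricanonical forms. If `X` is unirational and of positive dimension, then there is such a
map for `k = 1`. -/
theorem result {n : ℕ} (I : Ideal (MvPolynomial (Fin (n + 1)) ℂ)) (hI : I.IsPrime) :
    ((∃ s r e d f, Curve I 1 f ∧ Bdd Set.univ 1 s r e d f ∧ DenseIn I (Set.range f)) ∨
        (∃ k r e f, ExpMap k r e I 1 f ∧ DenseIn I (Set.range f)) →
      ∀ (m : ℕ) (J : Ideal (MvPolynomial (Fin (m + 1)) ℂ))
        (g : Fin (m + 1) → MvPolynomial (Fin (n + 1)) ℂ) (δ : ℕ), J.IsPrime → DomRat I g δ J →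
        PosDim J → Uniruled J ∧
          ∀ (K : Type) [Field K] [Algebra ℂ K] (w : ℕ) (y : Fin (m + 1) → K),
            FunField J 1 K w y → ∀ N, 0 < N → ∀ ω : (Fin w → Derivation ℂ K K) → K,
              Pluricanonical w N ω → ω = 0) ∧
    (Unirational I → PosDim I →
      ∃ r e f, ExpMap 1 r e I 1 f ∧ DenseIn I (Set.range f)) := by
  refine ⟨fun h m J g δ hJ hg hd => ?_, fun ⟨m, g, δ, hg⟩ hd => exp_of_unirational hg hd⟩
  have hu : Uniruled J := by
    rcases h with ⟨s, r, e, d, f, hf, hb, hS⟩ | ⟨k, r, e, f, hf, hS⟩
    · exact image_of_curve hI hJ hg hd hf hb hS
    · exact image_of_exp hI hJ hg hd hf hS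
  refine ⟨hu, fun K _ _ w y hy N hN ω hω => ?_⟩
  by_contra hω0
  exact not_ruled_of_form hy ⟨N, hN, ω, hω, hω0⟩ (uniruled_iff.2 hu)

end Pool.Agent.Results.MP_1209e6_ag.DenseCurvesImages
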