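import Pool.Agent.V1153.PK.Fibre

/-!
# The Kobayashi pseudodistance and the fibres of morphisms

Let `X` and `Y` be projective varieties over the complex numbers, with the homogeneous ideals `I` and
`J`. `DomMor I g δ J`: the forms `g` of degree `δ` have no common zeros on `X` and define a dominant
morphism from `X` to `Y`.

For the class of the holomorphic discs of complexity `(s, r, e, d)` in `X` (in some open set the
homogeneous coordinates, up to a common factor, are polynomials of degree at most `e` in each of the
functions `z`, `1 / q(z)`, `deg q ≤ d`, and the entries of the solutions `y_1, ..., y_s` of iterated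
systems of `r` linear differential equations) we consider the Kobayashi pseudodistance of `X` given by
this class, the infimum of the lengths, for the Poincaré distance, of the chains of discs of the class
which join two points.

`SeparatesFibres J`: for all dominant morphisms `X → Y` as above and all `(s, r, e, d)` this
pseudodistance is positive between any point of `X` outside of some proper closed subset and any point
of `X` with a different image in `Y`.
-/

set_option autoImplicit false

namespace Pool.Agent.Results.MP_1209e6_ag.KobayashiFibres

open MvPolynomial Pool.Agent.V1153.UG Pool.Agent.V1153.KB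
open Pool.Agent.TH143.GT (FunField Pluricanonical)
open Pool.Agent.W602.GT (GeneralType)

/-- The points of `X` which are not separated from points in other fibres: for some `(s, r, e, d)` and
all forms `G` which do not vanish on `X` there are a point `x` with `G(x) ≠ 0` and a point `y` with
another image such that the pseudodistance of `x` and `y` given by the discs of complexity
`(s, r, e, d)` is zero. -/
def Degenerate {n k : ℕ} (I : Ideal (MvPolynomial (Fin (n + 1)) ℂ))
    (g : Fin (k + 1) → MvPolynomial (Fin (n + 1)) ℂ) : Prop :=
  ∃ s r e d : ℕ, ∀ G : MvPolynomial (Fin (n + 1)) ℂ, (∃ m, G.IsHomogeneous m) → G ∉ I →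
    ∃ x y : Fin (n + 1) → ℂ, x ≠ 0 ∧ y ≠ 0 ∧
      (∀ F ∈ I, (∃ m, F.IsHomogeneous m) → eval x F = 0) ∧
      (∀ F ∈ I, (∃ m, F.IsHomogeneous m) → eval y F = 0) ∧ eval x G ≠ 0 ∧
      (∃ i j, eval x (g i) * eval y (g j) ≠ eval x (g j) * eval y (g i)) ∧
      kob (DCx {F | F ∈ I ∧ ∃ m, F.IsHomogeneous m} s r e d) x y = 0

/-- Let `Y` be the projective variety with the ideal `J`. **(1)** `Y` is not uniruled if and only if
for all dominant morphisms from a projective variety `X` to `Y` given by forms without common zeros
and all `(s, r, e, d)` the Kobayashi pseudodistance given by the discs of complexity `(s, r, e, d)` in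
`X` separates the points of `X` outside of a proper closed subset from the points in other fibres.
**(2)** If for some complexity the pseudodistance of `X` is zero for pairs of points in different
fibres of a dominant morphism `X → Y` the first of which are Zariski dense in `X`, then `Y` is uniruled
and all pluricanonical forms of `Y` vanish, so that `Y` is not of general type. -/
theorem result {k : ℕ} (J : Ideal (MvPolynomial (Fin (k + 1)) ℂ)) (hJ : J.IsPrime) :
    (¬ Uniruled J ↔ SeparatesFibres J) ∧
    ∀ (n : ℕ) (I : Ideal (MvPolynomial (Fin (n + 1)) ℂ)), I.IsPrime →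
      ∀ (g : Fin (k + 1) → MvPolynomial (Fin (n + 1)) ℂ) (δ : ℕ), DomMor I g δ J →
        Degenerate I g → Uniruled J ∧
          ∀ (K : Type) [Field K] [Algebra ℂ K] (w : ℕ) (y : Fin (k + 1) → K), FunField J 1 K w y →
            ¬ GeneralType ℂ K w ∧ ∀ N, 0 < N → ∀ ω : (Fin w → Derivation ℂ K K) → K,
              Pluricanonical w N ω → ω = 0 := by
  have key : ¬ Uniruled J ↔ SeparatesFibres J := by
    rw [← uniruled_iff]
    exact ⟨fun h => separates hJ h, fun h => not_ruled_of_sep hJ h⟩
  refine ⟨key, fun n I hI g δ hg hdeg => ?_⟩
  have hU : Uniruled J := by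
    by_contra h
    obtain ⟨s, r, e, d, hall⟩ := hdeg
    obtain ⟨G, hG, hGI, hpos⟩ := key.1 h n I hI g δ hg s r e d
    obtain ⟨x, y, hx, hy, hxI, hyI, hxG, hxy, h0⟩ := hall G hG hGI
    have h1 := hpos x y hx hy hxI hyI hxG hxy
    rw [h0] at h1
    exact lt_irrefl _ h1
  refine ⟨hU, fun K _ _ w y hy => ?_⟩
  have h2 : ∀ N, 0 < N → ∀ ω : (Fin w → Derivation ℂ K K) → K, Pluricanonical w N ω → ω = 0 := by
    intro N hN ω hω
    by_contra hne
    exact not_ruled_of_form hy ⟨N, hN, ω, hω, hne⟩ (uniruled_iff.2 hU)
  refine ⟨fun hgt => ?_, h2⟩
  obtain ⟨N, hN, ω, hω, hne⟩ := form_of_gt hgt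
  exact hne (h2 N hN ω hω)

end Pool.Agent.Results.MP_1209e6_ag.KobayashiFibres
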